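import Pool.Agent.MP_d0fd9b_nt.H68.Main

/-! The sum of the 5-torsion of the class groups of the quadratic fields `ℚ(√d)`, `|d| ≤ N`, is at
most `N ^ (1 + ε)`: the 5-torsion is `N ^ ε` on average. -/

set_option autoImplicit false
open Pool.Agent.MP_d0fd9b_nt.H72

namespace Pool.Agent.Results.MP_d0fd9b_nt.FiveTorsion

open Classical in
theorem result (ε : ℝ) (hε : 0 < ε) :
    ∀ᶠ N : ℕ in Filter.atTop,
      ∑ d ∈ (Finset.Icc (-(N : ℤ)) N).filter (fun d => Squarefree d ∧ d ≠ 1), (torsion 5 d : ℝ) ≤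
        (N : ℝ) ^ (1 + ε) :=
  Pool.Agent.MP_d0fd9b_nt.H68.five_mean hε

end Pool.Agent.Results.MP_d0fd9b_nt.FiveTorsion
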