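import Pool.Agent.MP_d0fd9b_nt.P3.Z

/-! The Cohen–Lenstra first moment of the 3-torsion of class groups of quadratic function fields
with prime discriminant over a finite field of characteristic 3: the mean over monic irreducible
`f` is `2` (imaginary case, odd degree) and `4 / 3` (real case, even degree). -/

set_option autoImplicit false
open Polynomial Filter Topology

namespace Pool.Agent.Results.MP_d0fd9b_nt.PrimeThree

theorem result (k : Type*) [Field k] [Fintype k] [CharP k 3] :
    Tendsto (fun n : ℕ =>
      (∑ᶠ f ∈ {f : k[X] | f.Monic ∧ f.natDegree = n ∧ Irreducible f},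
          (Nat.card {c : CommRing.Pic (QuadraticAlgebra k[X] f 0) // c ^ 3 = 1} : ℝ)) /
        ({f : k[X] | f.Monic ∧ f.natDegree = n ∧ Irreducible f}.ncard : ℝ) -
        (if Even n then 4 / 3 else 2)) atTop (𝓝 0) :=
  Pool.Agent.H68T.final k

end Pool.Agent.Results.MP_d0fd9b_nt.PrimeThree
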