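import Pool.Agent.MP_d0fd9b_nt.Mg.S64_Box

/-! The sum of the squares of the sizes of the 3-torsion subgroups of the class groups of the
quadratic fields `ℚ(√d)`, `|d| ≤ N`, is at most `C N`. -/

set_option autoImplicit false
open Pool.Agent.MP_d0fd9b_nt.H72

namespace Pool.Agent.Results.MP_d0fd9b_nt.SharpMoment

open Classical in
theorem result : ∃ C : ℝ, ∀ N : ℕ, 1 ≤ N →
    ∑ d ∈ (Finset.Icc (-(N : ℤ)) N).filter (fun d => Squarefree d ∧ d ≠ 1), (torsion 3 d : ℝ) ^ 2 ≤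
      C * N :=
  let ⟨C, _, h⟩ := Pool.Agent.MP_d0fd9b_nt.S64.second2
  ⟨C, h⟩

end Pool.Agent.Results.MP_d0fd9b_nt.SharpMoment
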