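import Pool.Agent.MP_d0fd9b_nt.Mg.S64_Pos

/-! For either sign `s`, a positive proportion of the quadratic fields `ℚ(√(s d))`, `d ≥ 1`
squarefree, have class number divisible by `3`. -/

set_option autoImplicit false

namespace Pool.Agent.Results.MP_d0fd9b_nt.ThreePositive

open Classical in
theorem result (s : ℤ) (hs : s = 1 ∨ s = -1) : ∃ c : ℝ, 0 < c ∧ ∀ᶠ N : ℕ in Filter.atTop,
    c * N ≤ ((Finset.Icc (1 : ℤ) N).filter fun d => Squarefree d ∧
      3 ∣ Nat.card (ClassGroup (NumberField.RingOfIntegers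
        (IntermediateField.adjoin ℚ {z : ℂ | z ^ 2 = ((s * d : ℤ) : ℂ)})))).card := by
  obtain ⟨c, c0, hc⟩ := Pool.Agent.MP_d0fd9b_nt.S64.positive hs
  refine ⟨c, c0, ?_⟩
  filter_upwards [hc] with N hN
  refine hN.trans (Nat.cast_le.2 (Finset.card_le_card (Finset.monotone_filter_right _ fun d _ h =>
    ⟨h.1, ?_⟩)))
  have := Nat.finite_of_card_ne_zero (Nat.one_le_iff_ne_zero.1 h.2.le)
  obtain ⟨c, hc⟩ := @exists_ne _ (Finite.one_lt_card_iff_nontrivial.1 h.2) ⟨1, one_pow 3⟩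
  have : Fact (Nat.Prime 3) := ⟨Nat.prime_three⟩
  exact orderOf_eq_prime c.2 (fun h1 => hc (Subtype.ext h1)) ▸ orderOf_dvd_natCard c.1

end Pool.Agent.Results.MP_d0fd9b_nt.ThreePositive
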